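import Pool.Agent.Work.MP_e487d8_al.Y.Mo.All
import Pool.Agent.Work.MP_e487d8_al.Bd.B29
import Pool.Agent.Work.MP_e487d8_al.Bd.B01
import Pool.Agent.Work.MP_e487d8_al.Y.Fin.Mir

/-! MP_e487d8_al: the instance of the abstract interface `Sys2` for the KLR algebra: definitions and
statements of the fields which do not mention the graded Grothendieck ring. -/

set_option autoImplicit false

open Pool.Agent.E487.Hopf Pool.Agent.KLSAbs

namespace Pool.Agent.KLS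

variable {K I : Type} [Field K] [Fintype I] [DecidableEq I] {D : Datum K I}

namespace In

/-- the mirror of a simple module -/
noncomputable def mirS (X : Sm D) : Sm D := Sm.cls X.rep.mir

/-- `Z` is a simple quotient of `X ∘ Y` -/
def Hd (X Y Z : Sm D) : Prop := Quo D Z.rep.M (X.rep.conv Y.rep)

/-- `X ∘ Y` has exactly one maximal submodule, with quotient `Z` -/
def Hd1 (X Y Z : Sm D) : Prop := ∃ f : X.rep.conv Y.rep →ₗ[KLRAlg D] Z.rep.M,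
  Function.Surjective f ∧
    ∀ N : Submodule (KLRAlg D) (X.rep.conv Y.rep), N ≠ ⊤ → N ≤ LinearMap.ker f

/-- `X ∘ Y ≅ Y ∘ X` -/
def IC (X Y : Sm D) : Prop := X.rep.IC Y.rep

section

variable {Lp : I → ℕ → SMod D} (hC : CFacts D Lp) (hconv : S_conv D)

/-- `ε*_i` -/
noncomputable def eps' (i : I) (X : Sm D) : ℕ := Sm.eps hC i (mirS X)

/-- `e*_i^max` -/
noncomputable def E' (i : I) (X : Sm D) : Sm D := mirS (Sm.E hC i (mirS X))

/-- `e_i` at `q = 1` -/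
noncomputable def de (i : I) : Sm.Gr hC hconv →ₗ[ℚ] Sm.Gr hC hconv where
  toFun f := ⟨Sh.L i f.1, (Sm.subBi hC hconv).hL f.1 f.2 i⟩
  map_add' _ _ := Subtype.ext (map_add _ _ _)
  map_smul' _ _ := Subtype.ext (map_smul _ _ _)

/-- `e*_i` at `q = 1` -/
noncomputable def de' (i : I) : Sm.Gr hC hconv →ₗ[ℚ] Sm.Gr hC hconv where
  toFun f := ⟨Sh.R i f.1, (Sm.subBi hC hconv).hR f.1 f.2 i⟩
  map_add' _ _ := Subtype.ext (map_add _ _ _)
  map_smul' _ _ := Subtype.ext (map_smul _ _ _)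

/-- the basis -/
noncomputable abbrev b : Module.Basis (Sm D) ℚ (Sm.Gr hC hconv) := Sm.bas hC hconv

/-- MIR: the mirror -/
structure StMir : Prop where
  mir_mir : ∀ X : Sm D, mirS (mirS X) = X
  apply : ∀ (X : Sm D) (ν : List I), (mirS X).1 ν = X.1 ν.reverse
  wt : ∀ X : Sm D, Sm.wt (mirS X) = Sm.wt X
  one : mirS (Sm.one D) = Sm.one D
  lt : ∀ i, mirS (Sm.lt Lp i) = Sm.lt Lp i
  co : ∀ X Y Z : Sm D, Sm.co hC hconv (mirS X) (mirS Y) (mirS Z) = Sm.co hC hconv X Y Z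
  mul : ∀ X Y Z : Sm D, (b hC hconv) (mirS X) * (b hC hconv) (mirS Y) = (b hC hconv) (mirS Z) ↔ (b hC hconv) X * (b hC hconv) Y = (b hC hconv) Z
  pow : ∀ (X Z : Sm D) (n : ℕ), (b hC hconv) (mirS X) ^ n = (b hC hconv) (mirS Z) ↔ (b hC hconv) X ^ n = (b hC hconv) Z
  hd : ∀ X Y Z : Sm D, Hd (mirS X) (mirS Y) (mirS Z) ↔ Hd Y X Z

/-- EPSS: the two definitions of `ε*_i` -/
def StEpss : Prop := ∀ (i : I) (X : Sm D), eps' hC i X = Sm.epss i X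

/-- PRI: the primed crystal -/
structure StPri : Prop where
  ex_eps : ∀ X : Sm D, X ≠ Sm.one D → ∃ i, Sm.eps hC i X ≠ 0
  eps_E' : ∀ (i : I) (X : Sm D), eps' hC i (E' hC i X) = 0
  E_of_eps' : ∀ (i : I) (X : Sm D), eps' hC i X = 0 → E' hC i X = X
  eps_inj' : ∀ (i : I) (X Y : Sm D), eps' hC i X = eps' hC i Y → E' hC i X = E' hC i Y → X = Y
  eps_surj' : ∀ (i : I) (a : ℕ) (X : Sm D), eps' hC i X = 0 →
    ∃ Y, eps' hC i Y = a ∧ E' hC i Y = X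
  wt_E' : ∀ (i : I) (X : Sm D), Sm.wt X = Sm.wt (E' hC i X) + Finsupp.single i (eps' hC i X)
  eps_co' : ∀ (i : I) (X Y Z : Sm D), Sm.co hC hconv X Y Z ≠ 0 →
    eps' hC i Z ≤ eps' hC i X + eps' hC i Y
  co_E' : ∀ (i : I) (X Y Z : Sm D), eps' hC i Z = eps' hC i X + eps' hC i Y →
    Sm.co hC hconv X Y Z = Sm.co hC hconv (E' hC i X) (E' hC i Y) (E' hC i Z)
  ex_eps' : ∀ X : Sm D, X ≠ Sm.one D → ∃ i, eps' hC i X ≠ 0

/-- ADM: adapted simple modules and words -/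
structure StAdm : Prop where
  ad_mirror : ∀ (w : List I) (X : Sm D), AdP (Sm.E hC) (Sm.one D) w X ↔
    AdP (E' hC) (Sm.one D) w.reverse X
  ad_co : ∀ (w : List I) (X Y Z : Sm D), Sm.co hC hconv X Y Z ≠ 0 →
    AdP (Sm.E hC) (Sm.one D) w Z → AdP (Sm.E hC) (Sm.one D) w X
  Ad_E' : ∀ (i : I) (w : List I) (X : Sm D), AdP (E' hC) (Sm.one D) w X →
    AdP (E' hC) (Sm.one D) w (E' hC i X)

/-- LTP: the modules `L(i)` -/
structure StLtp : Prop where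
  wt_lt : ∀ i : I, Sm.wt (Sm.lt Lp i) = Finsupp.single i 1
  pow : ∀ (i : I) (n : ℕ), (b hC hconv) (Sm.lt Lp i) ^ n = (b hC hconv) (Sm.cls (Lp i n))
  lt_pow : ∀ i : I, PSR (b hC hconv) (Sm.lt Lp i)

/-- CHI: `dim M / (ht M)!` -/
def StChi : Prop := ∃ chi : Sm.Gr hC hconv →ₐ[ℚ] ℚ, ∀ X : Sm D, 0 < chi ((b hC hconv) X)

/-- DE: the derivations -/
structure StDe : Prop where
  de_mul : ∀ (i : I) (x y : Sm.Gr hC hconv),
    de hC hconv i (x * y) = de hC hconv i x * y + x * de hC hconv i y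
  de_pos : ∀ (i : I) (X Y : Sm D), 0 ≤ (b hC hconv).repr (de hC hconv i ((b hC hconv) X)) Y
  de_top : ∀ (i : I) (X : Sm D), ((de hC hconv i) ^ Sm.eps hC i X) ((b hC hconv) X) =
    ((Sm.eps hC i X).factorial : ℚ) • (b hC hconv) (Sm.E hC i X)
  de_zero : ∀ (i : I) (X : Sm D), Sm.eps hC i X = 0 → de hC hconv i ((b hC hconv) X) = 0
  de_comm : ∀ (i j : I) (x : Sm.Gr hC hconv),
    de hC hconv i (de' hC hconv j x) = de' hC hconv j (de hC hconv i x)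

/-- DEP: the derivations on the right side -/
structure StDep : Prop where
  de_mul' : ∀ (i : I) (x y : Sm.Gr hC hconv),
    de' hC hconv i (x * y) = de' hC hconv i x * y + x * de' hC hconv i y
  de_pos' : ∀ (i : I) (X Y : Sm D), 0 ≤ (b hC hconv).repr (de' hC hconv i ((b hC hconv) X)) Y
  de_top' : ∀ (i : I) (X : Sm D), ((de' hC hconv i) ^ eps' hC i X) ((b hC hconv) X) =
    ((eps' hC i X).factorial : ℚ) • (b hC hconv) (E' hC i X)
  de_zero' : ∀ (i : I) (X : Sm D), eps' hC i X = 0 → de' hC hconv i ((b hC hconv) X) = 0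

/-- DR: the `d_i` rules -/
structure StDr : Prop where
  d_nonneg : ∀ (i : I) (X : Sm D),
    sumW (D.A i) (Sm.wt X) ≤ (Sm.eps hC i X : ℤ) + eps' hC i X
  cm_lt : ∀ (i : I) (X : Sm D), (∃ Z, (b hC hconv) (Sm.lt Lp i) * (b hC hconv) X = (b hC hconv) Z) ↔
    sumW (D.A i) (Sm.wt X) = (Sm.eps hC i X : ℤ) + eps' hC i X
  d_f : ∀ (i : I) (X Y : Sm D), Sm.eps hC i Y = Sm.eps hC i X + 1 → Sm.E hC i Y = Sm.E hC i X →
    sumW (D.A i) (Sm.wt X) < (Sm.eps hC i X : ℤ) + eps' hC i X → eps' hC i Y ≤ eps' hC i X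
  d_f' : ∀ (i : I) (X Y : Sm D), eps' hC i Y = eps' hC i X + 1 → E' hC i Y = E' hC i X →
    sumW (D.A i) (Sm.wt X) < (Sm.eps hC i X : ℤ) + eps' hC i X → Sm.eps hC i Y ≤ Sm.eps hC i X

/-- HDB: simple facts on heads -/
structure StHdb : Prop where
  hd_ex : ∀ X Y : Sm D, ∃ Z, Hd X Y Z
  hd_co : ∀ X Y Z : Sm D, Hd X Y Z → Sm.co hC hconv X Y Z ≠ 0
  hd_eps : ∀ (i : I) (X Y Z : Sm D), Hd X Y Z → Sm.eps hC i X ≤ Sm.eps hC i Z
  hd_eps' : ∀ (i : I) (X Y Z : Sm D), Hd X Y Z → eps' hC i Y ≤ eps' hC i Z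

/-- HDA: associativity of heads -/
structure StHda : Prop where
  hd_as : ∀ A B C AB W Z : Sm D, (b hC hconv) A * (b hC hconv) B = (b hC hconv) AB → Hd B C W → Hd A W Z → Hd AB C Z
  hd_as' : ∀ A B C BC W Z : Sm D, (b hC hconv) B * (b hC hconv) C = (b hC hconv) BC → Hd A B W → Hd W C Z → Hd A BC Z

/-- HDS: (S2) -/
def StHds : Prop := ∀ X Y T : Sm D, (∀ Z, Hd X Y Z → Z = T) → (∀ Z, Hd Y X Z → Z = T) →
  Sm.co hC hconv X Y T = 1 → ∃ Z, (b hC hconv) X * (b hC hconv) Y = (b hC hconv) Z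

/-- HDL: the quotients of `L(i^m) ∘ W` -/
def StHdl : Prop := ∀ (i : I) (m : ℕ) (L W Z : Sm D), (b hC hconv) (Sm.lt Lp i) ^ m = (b hC hconv) L →
  (Hd L W Z ↔ Sm.eps hC i Z = Sm.eps hC i W + m ∧ Sm.E hC i Z = Sm.E hC i W)

/-- HDLP: the mirror of HDL -/
def StHdlp : Prop := ∀ (i : I) (m : ℕ) (L W Z : Sm D), (b hC hconv) (Sm.lt Lp i) ^ m = (b hC hconv) L →
  (Hd W L Z ↔ eps' hC i Z = eps' hC i W + m ∧ E' hC i Z = E' hC i W)

/-- ICB: `X ∘ Y ≅ Y ∘ X` -/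
structure StIcb : Prop where
  ic_refl : ∀ X : Sm D, IC X X
  ic_symm : ∀ X Y : Sm D, IC X Y → IC Y X
  ic_cm : ∀ X Y Z : Sm D, (b hC hconv) X * (b hC hconv) Y = (b hC hconv) Z → IC X Y
  ic_mul : ∀ X A B AB : Sm D, (b hC hconv) A * (b hC hconv) B = (b hC hconv) AB → IC X A → IC X B → IC X AB
  ic_hd : ∀ X Y Z : Sm D, IC X Y → Hd X Y Z → Hd Y X Z

/-- HDI: quotients of `C ∘ X` if `L(i) ∘ C ≅ C ∘ L(i)` -/
structure StHdi : Prop where
  hd_ic : ∀ (i : I) (C X Z : Sm D), IC (Sm.lt Lp i) C → Hd C X Z →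
    Sm.eps hC i Z = Sm.eps hC i C + Sm.eps hC i X ∧
      Hd (Sm.E hC i C) (Sm.E hC i X) (Sm.E hC i Z)
  hd_ic' : ∀ (i : I) (C X Z : Sm D), IC (Sm.lt Lp i) C → Hd X C Z →
    eps' hC i Z = eps' hC i C + eps' hC i X ∧ Hd (E' hC i X) (E' hC i C) (E' hC i Z)

/-- TR: strongly real modules, strong commutation, powers -/
structure StTr : Prop where
  pw : ∀ (C T : Sm D) (n : ℕ), (b hC hconv) C ^ n = (b hC hconv) T ↔ C.rep.Pw n T.rep
  sr : ∀ C : Sm D, PSR (b hC hconv) C ↔ C.rep.SR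
  sc : ∀ C X : Sm D, PSC (b hC hconv) C X ↔ C.rep.SC X.rep
  dag : ∀ C : Sm D, PDag (b hC hconv) Hd C ↔ C.rep.Dag
  dagm : ∀ C : Sm D, PDag (b hC hconv) (fun X Y => Hd Y X) C ↔ C.rep.Dagm

/-- K1S: K1 and its mirror -/
structure StK1s' : Prop where
  hd1_hd : ∀ X Y Z : Sm D, Hd1 X Y Z → Hd X Y Z
  hd1_eq : ∀ X Y Z Z' : Sm D, Hd1 X Y Z → Hd X Y Z' → Z' = Z
  k1 : ∀ (C X T : Sm D) (n : ℕ), PSR (b hC hconv) C → PDag (b hC hconv) Hd C → (b hC hconv) C ^ n = (b hC hconv) T → ∃ Z, Hd1 T X Z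
  k1' : ∀ (C X T : Sm D) (n : ℕ), PSR (b hC hconv) C → PDag (b hC hconv) (fun X Y => Hd Y X) C → (b hC hconv) C ^ n = (b hC hconv) T →
    ∃ Z, Hd1 X T Z

/-- K4S: K4 and its mirror -/
structure StK4s : Prop where
  k4 : ∀ (C X Y T Z : Sm D) (n : ℕ), PSR (b hC hconv) C → PDag (b hC hconv) Hd C → (b hC hconv) C ^ n = (b hC hconv) T →
    Hd T X Z → Hd T Y Z → X = Y
  k4' : ∀ (C X Y T Z : Sm D) (n : ℕ), PSR (b hC hconv) C → PDag (b hC hconv) (fun X Y => Hd Y X) C →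
    (b hC hconv) C ^ n = (b hC hconv) T → Hd X T Z → Hd Y T Z → X = Y

/-- DSS: (DS) and its mirror -/
structure StDss : Prop where
  ds : ∀ T B C Z Z' : Sm D, Hd T B Z → Hd C Z Z' → (¬ ∃ W, (b hC hconv) C * (b hC hconv) Z = (b hC hconv) W) →
    ∃ (B' Y : Sm D) (Q : Sm D →₀ ℕ), Sm.co hC hconv C B B' ≠ 0 ∧ Hd T B' Y ∧
      Sm.co hC hconv C Z = Finsupp.single Z' 1 + Finsupp.single Y 1 + Q
  ds' : ∀ T B C Z Z' : Sm D, Hd B T Z → Hd Z C Z' → (¬ ∃ W, (b hC hconv) C * (b hC hconv) Z = (b hC hconv) W) →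
    ∃ (B' Y : Sm D) (Q : Sm D →₀ ℕ), Sm.co hC hconv C B B' ≠ 0 ∧ Hd B' T Y ∧
      Sm.co hC hconv C Z = Finsupp.single Z' 1 + Finsupp.single Y 1 + Q

/-- LBS: (LBF) and its mirror -/
structure StLbs : Prop where
  lbf : ∀ (i : I) (y k yk g F F₀ Y : Sm D) (a c : ℕ), Sm.eps hC i y = 0 → Sm.eps hC i k = 0 →
    (b hC hconv) y * (b hC hconv) k = (b hC hconv) yk → Sm.eps hC i g = a → Sm.E hC i g = y → IC (Sm.lt Lp i) g →
    Sm.eps hC i F₀ = c → Sm.E hC i F₀ = k → Sm.eps hC i F = a + c → Sm.E hC i F = k →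
    Sm.eps hC i Y = a + c → Sm.E hC i Y = yk →
    ∃ Q : Sm D →₀ ℕ, (b hC hconv) Y + (b hC hconv) y * (b hC hconv) (Sm.lt Lp i) ^ a * (b hC hconv) F₀ =
      (b hC hconv) y * (b hC hconv) F + (b hC hconv) g * (b hC hconv) F₀ + Q.sum fun Z n => (n : ℚ) • (b hC hconv) Z
  lbf' : ∀ (i : I) (y k yk g F F₀ Y : Sm D) (a c : ℕ), eps' hC i y = 0 → eps' hC i k = 0 →
    (b hC hconv) y * (b hC hconv) k = (b hC hconv) yk → eps' hC i g = a → E' hC i g = y → IC (Sm.lt Lp i) g →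
    eps' hC i F₀ = c → E' hC i F₀ = k → eps' hC i F = a + c → E' hC i F = k →
    eps' hC i Y = a + c → E' hC i Y = yk →
    ∃ Q : Sm D →₀ ℕ, (b hC hconv) Y + (b hC hconv) y * (b hC hconv) (Sm.lt Lp i) ^ a * (b hC hconv) F₀ =
      (b hC hconv) y * (b hC hconv) F + (b hC hconv) g * (b hC hconv) F₀ + Q.sum fun Z n => (n : ℚ) • (b hC hconv) Z

end

end In

end Pool.Agent.KLS
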